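import Pool.Agent.W710.DP.Stm2

/-! DP-POT: primitive of a closed form on a box. -/

set_option autoImplicit false

namespace Pool.Agent.W699.DP

open MeasureTheory Set Filter Topology
open Pool.Agent.W710.DP

theorem sm_diff {f : ℝ × ℝ → ℝ} (hf : Sm f) (z : ℝ × ℝ) : HasFDerivAt f (fderiv ℝ f z) z :=
  ((hf.differentiable (by simp)) z).hasFDerivAt

theorem der_px {f : ℝ × ℝ → ℝ} (hf : Sm f) (x y : ℝ) :
    HasDerivAt (fun s : ℝ => f (s, y)) (px f (x, y)) x := by
  have h2 : HasDerivAt (fun s : ℝ => ((s, y) : ℝ × ℝ)) (1, 0) x :=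
    (hasDerivAt_id x).prodMk (hasDerivAt_const x y)
  exact (sm_diff hf (x, y)).comp_hasDerivAt x h2

theorem der_ps {f : ℝ × ℝ → ℝ} (hf : Sm f) (x y : ℝ) :
    HasDerivAt (fun s : ℝ => f (x, s)) (ps f (x, y)) y := by
  have h2 : HasDerivAt (fun s : ℝ => ((x, s) : ℝ × ℝ)) (0, 1) y :=
    (hasDerivAt_const y x).prodMk (hasDerivAt_id y)
  exact (sm_diff hf (x, y)).comp_hasDerivAt y h2

theorem cont_px {f : ℝ × ℝ → ℝ} (hf : Sm f) : Continuous (px f) :=
  (hf.continuous_fderiv (by simp)).clm_apply continuous_const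

theorem cont_ps {f : ℝ × ℝ → ℝ} (hf : Sm f) : Continuous (ps f) :=
  (hf.continuous_fderiv (by simp)).clm_apply continuous_const

theorem der_int {q : ℝ × ℝ → ℝ} (hq : Sm q) (x b : ℝ) :
    HasDerivAt (fun a : ℝ => ∫ t in (0 : ℝ)..b, q (a, t)) (∫ t in (0 : ℝ)..b, px q (x, t)) x := by
  have hK : IsCompact (Icc (x - 1) (x + 1) ×ˢ uIcc 0 b) := isCompact_Icc.prod isCompact_uIcc
  obtain ⟨M, hM⟩ := hK.exists_bound_of_continuousOn (cont_px hq).continuousOn
  have hc : Continuous q := hq.continuous
  refine (intervalIntegral.hasDerivAt_integral_of_dominated_loc_of_deriv_le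
    (F := fun a t => q (a, t)) (F' := fun a t => px q (a, t)) (s := Ioo (x - 1) (x + 1))
    (bound := fun _ => M) ?_ ?_ ?_ ?_ ?_ ?_ ?_).2
  · exact Ioo_mem_nhds (by linarith) (by linarith)
  · refine Eventually.of_forall fun a => ?_
    exact (hc.comp (continuous_const.prodMk continuous_id)).aestronglyMeasurable
  · exact (hc.comp (continuous_const.prodMk continuous_id)).intervalIntegrable _ _
  · exact ((cont_px hq).comp (continuous_const.prodMk continuous_id)).aestronglyMeasurable
  · refine Eventually.of_forall fun t ht a ha => ?_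
    exact hM (a, t) ⟨⟨ha.1.le, ha.2.le⟩, uIoc_subset_uIcc ht⟩
  · exact intervalIntegrable_const
  · refine Eventually.of_forall fun t _ a _ => ?_
    exact der_px hq a t

theorem t_pot : S_pot := by
  intro p q I J hp hq hI hJ oI oJ zI zJ hcl x hx y hy
  set F : ℝ → ℝ → ℝ := fun a b => (∫ t in (0 : ℝ)..a, p (t, 0)) + ∫ t in (0 : ℝ)..b, q (a, t)
    with hF
  have cp : Continuous p := hp.continuous
  have cq : Continuous q := hq.continuous
  have hU : ∀ᶠ v : ℝ × ℝ in 𝓝 (x, y), v ∈ I ×ˢ J :=
    (hI.prod hJ).mem_nhds ⟨hx, hy⟩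
  have hs := hasStrictFDerivAt_uncurry_coprod (𝕜 := ℝ) (u := (x, y)) (f := F)
    (f₁ := fun a b => (p (a, b)) • ContinuousLinearMap.id ℝ ℝ)
    (f₂ := fun a b => (q (a, b)) • ContinuousLinearMap.id ℝ ℝ) ?_ ?_ ?_ ?_
  · have h1 := hs.hasFDerivAt
    refine h1.congr_fderiv ?_
    ext <;> simp [Function.HasUncurry.uncurry]
  · filter_upwards [hU] with v hv
    obtain ⟨a, b⟩ := v
    obtain ⟨ha, hb⟩ := hv
    simp only at ha hb
    have h1 : HasDerivAt (fun a : ℝ => ∫ t in (0 : ℝ)..a, p (t, 0)) (p (a, 0)) a := by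
      have hc : Continuous fun t : ℝ => p (t, 0) :=
        cp.comp (continuous_id.prodMk continuous_const)
      exact intervalIntegral.integral_hasDerivAt_right (hc.intervalIntegrable _ _)
        (hc.stronglyMeasurableAtFilter _ _) hc.continuousAt
    have h2 := der_int hq a b
    have h3 : (∫ t in (0 : ℝ)..b, px q (a, t)) = p (a, b) - p (a, 0) := by
      have h4 : (∫ t in (0 : ℝ)..b, px q (a, t)) = ∫ t in (0 : ℝ)..b, ps p (a, t) := by
        refine intervalIntegral.integral_congr fun t ht => ?_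
        have : t ∈ J := by
          exact oJ.uIcc_subset zJ hb ht
        exact (hcl a ha t this).symm
      rw [h4]
      refine intervalIntegral.integral_eq_sub_of_hasDerivAt (f := fun t => p (a, t))
        (fun t _ => der_ps hp a t) ?_
      exact ((cont_ps hp).comp (continuous_const.prodMk continuous_id)).intervalIntegrable _ _
    have h5 := h1.add h2
    rw [h3] at h5
    have h6 : HasDerivAt (fun a => F a b) (p (a, b)) a := by
      refine h5.congr_deriv ?_
      ring
    have h7 := h6.hasFDerivAt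
    refine h7.congr_fderiv ?_
    ext
    simp [Function.HasUncurry.uncurry]
  · refine Eventually.of_forall fun v => ?_
    obtain ⟨a, b⟩ := v
    have hc : Continuous fun t : ℝ => q (a, t) :=
      cq.comp (continuous_const.prodMk continuous_id)
    have h1 : HasDerivAt (fun b : ℝ => ∫ t in (0 : ℝ)..b, q (a, t)) (q (a, b)) b :=
      intervalIntegral.integral_hasDerivAt_right (hc.intervalIntegrable _ _)
        (hc.stronglyMeasurableAtFilter _ _) hc.continuousAt
    have h6 : HasDerivAt (fun b => F a b) (q (a, b)) b := h1.const_add _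
    have h7 := h6.hasFDerivAt
    refine h7.congr_fderiv ?_
    ext
    simp [Function.HasUncurry.uncurry]
  · exact (cp.smul continuous_const).continuousAt
  · exact (cq.smul continuous_const).continuousAt

end Pool.Agent.W699.DP
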