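import Pool.Agent.W710.DP.Stm2

/-! DP-SHEAR: shears near 0. -/

set_option autoImplicit false

namespace Pool.Agent.W699.DP.Sh

open MeasureTheory Set Filter Topology
open Pool.Agent.W710.DP

theorem AP_mul {f g : Equiv.Perm ℂ} (hf : AP f) (hg : AP g) : AP (f * g) := by
  obtain ⟨f1, f2, f3⟩ := hf
  obtain ⟨g1, g2, g3⟩ := hg
  refine ⟨f1.comp g1, g2.comp f2, fun z => ?_⟩
  have h1 : fderiv ℝ (⇑(f * g)) z = (fderiv ℝ (⇑f) (g z)).comp (fderiv ℝ (⇑g) z) :=
    fderiv_comp z ((f1.differentiable (by simp)) (g z)) ((g1.differentiable (by simp)) z)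
  rw [h1]
  have h2 : ((fderiv ℝ (⇑f) (g z)).comp (fderiv ℝ (⇑g) z) : ℂ →ₗ[ℝ] ℂ)
      = ((fderiv ℝ (⇑f) (g z) : ℂ →L[ℝ] ℂ) : ℂ →ₗ[ℝ] ℂ).comp
        ((fderiv ℝ (⇑g) z : ℂ →L[ℝ] ℂ) : ℂ →ₗ[ℝ] ℂ) := rfl
  rw [h2, LinearMap.det_comp, f3, g3, one_mul]

theorem CS_mul {f g : Equiv.Perm ℂ} (hf : CS f) (hg : CS g) : CS (f * g) := by
  obtain ⟨r, hr⟩ := hf
  obtain ⟨s, hs⟩ := hg
  refine ⟨max r s, fun z hz => ?_⟩
  rw [Equiv.Perm.mul_apply, hs z (lt_of_le_of_lt (le_max_right _ _) hz),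
    hr z (lt_of_le_of_lt (le_max_left _ _) hz)]

theorem Germ_comp {n m : Equiv.Perm ℂ} {f g : ℂ → ℂ} (hn : Germ n f) (hm : Germ m g)
    (hc : ContinuousAt g 0) (h0 : g 0 = 0) : Germ (n * m) (fun z => f (g z)) := by
  obtain ⟨n1, n2, r, hr, n3⟩ := hn
  obtain ⟨m1, m2, s, hs, m3⟩ := hm
  refine ⟨AP_mul n1 m1, CS_mul n2 m2, ?_⟩
  have h1 : ∀ᶠ z in 𝓝 (0 : ℂ), ‖g z‖ < r := by
    have : Tendsto g (𝓝 0) (𝓝 0) := by
      have := hc.tendsto
      rwa [h0] at this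
    exact (this.norm).eventually (gt_mem_nhds (by simpa using hr))
  obtain ⟨ρ, hρ, h2⟩ := Metric.eventually_nhds_iff.1 h1
  refine ⟨min ρ s, lt_min hρ hs, fun z hz => ?_⟩
  rw [Equiv.Perm.mul_apply, m3 z (lt_of_lt_of_le hz (min_le_right _ _)), n3]
  exact h2 (by simpa [dist_zero_right] using lt_of_lt_of_le hz (min_le_left _ _))

theorem iter (S : ℝ → ℂ → ℂ) (hadd : ∀ s t z, S s (S t z) = S (s + t) z)
    (hcont : ∀ t, ContinuousAt (S t) 0) (h0 : ∀ t, S t 0 = 0)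
    (hsmall : ∃ B : ℝ, 0 < B ∧ ∀ t : ℝ, |t| * B ≤ 1 / 2 → ∃ n, Germ n (S t)) :
    ∀ t, ∃ n, Germ n (S t) := by
  obtain ⟨B, hB, hsm⟩ := hsmall
  intro t
  obtain ⟨k, hk⟩ := exists_nat_gt (2 * |t| * B)
  have hkk : (0 : ℝ) < (k : ℝ) + 1 := by positivity
  have h1 : |t / ((k : ℝ) + 1)| * B ≤ 1 / 2 := by
    rw [abs_div, abs_of_pos hkk, div_mul_eq_mul_div, div_le_iff₀ hkk]
    linarith
  obtain ⟨n, hn⟩ := hsm _ h1
  have key : ∀ j : ℕ, ∃ n, Germ n (S (((j : ℝ) + 1) * (t / ((k : ℝ) + 1)))) := by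
    intro j
    induction j with
    | zero => exact ⟨n, by simpa using hn⟩
    | succ j ih =>
      obtain ⟨m, hm⟩ := ih
      refine ⟨n * m, ?_⟩
      have := Germ_comp hn hm (hcont _) (h0 _)
      convert this using 1
      funext z
      rw [hadd]
      congr 1
      push_cast
      ring
  obtain ⟨m, hm⟩ := key k
  refine ⟨m, ?_⟩
  have : ((k : ℝ) + 1) * (t / ((k : ℝ) + 1)) = t := by field_simp
  rwa [this] at hm

theorem sm_fst {G : ℝ × ℝ → ℝ} (hG : Sm G) (v : ℝ × ℝ) : Sm (fun p => fderiv ℝ G p v) :=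
  (hG.fderiv_right (m := ((⊤ : ℕ∞) : WithTop ℕ∞)) (by simp)).clm_apply contDiff_const

theorem bdd {G : ℝ × ℝ → ℝ} (hG : Sm G) (hc : HasCompactSupport G) (v : ℝ × ℝ) :
    ∃ B : ℝ, ∀ p, ‖fderiv ℝ (fun p => fderiv ℝ G p v) p‖ ≤ B := by
  have h1 : HasCompactSupport (fun p => fderiv ℝ G p v) := by
    have := hc.fderiv (𝕜 := ℝ)
    exact this.comp_left (g := fun L : ℝ × ℝ →L[ℝ] ℝ => L v) rfl
  have h2 : HasCompactSupport (fderiv ℝ (fun p => fderiv ℝ G p v)) := h1.fderiv (𝕜 := ℝ)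
  exact ((sm_fst hG v).continuous_fderiv (by simp)).bounded_above_of_compact_support h2

theorem gen (h : S_gf) {G : ℝ × ℝ → ℝ} (hG : Sm G) (hc : HasCompactSupport G) :
    ∃ B : ℝ, 0 < B ∧ ∀ t : ℝ, |t| * B ≤ 1 / 2 → ∃ f : Equiv.Perm ℂ, AP f ∧ CS f ∧
      ∀ x y : ℝ, f (⟨x, y + t * px G (x, y)⟩ : ℂ) = (⟨x + t * ps G (x, y), y⟩ : ℂ) := by
  obtain ⟨B1, h1⟩ := bdd hG hc (1, 0)
  obtain ⟨B2, h2⟩ := bdd hG hc (0, 1)
  refine ⟨max (max B1 B2) 1, lt_of_lt_of_le one_pos (le_max_right _ _), fun t ht => ?_⟩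
  have hd : Differentiable ℝ G := hG.differentiable (by simp)
  have e : ∀ v : ℝ × ℝ, (fun p => fderiv ℝ (fun q => t * G q) p v)
      = fun p => t * fderiv ℝ G p v := by
    intro v
    funext p
    rw [fderiv_const_mul (hd p)]
    rfl
  have e2 : ∀ (v p : ℝ × ℝ), ‖fderiv ℝ (fun p => fderiv ℝ (fun q => t * G q) p v) p‖
      = |t| * ‖fderiv ℝ (fun p => fderiv ℝ G p v) p‖ := by
    intro v p
    rw [e v, fderiv_const_mul ((sm_fst hG v).differentiable (by simp) p), norm_smul,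
      Real.norm_eq_abs]
  obtain ⟨f, f1, f2, f3⟩ := h (fun q => t * G q) (contDiff_const.mul hG)
    (hc.mul_left) (fun p => by
      constructor
      · change ‖fderiv ℝ (fun p => fderiv ℝ (fun q => t * G q) p (1, 0)) p‖ ≤ 1 / 2
        rw [e2]
        refine le_trans (mul_le_mul_of_nonneg_left ((h1 p).trans ?_) (abs_nonneg t)) ht
        exact (le_max_left _ _).trans (le_max_left _ _)
      · change ‖fderiv ℝ (fun p => fderiv ℝ (fun q => t * G q) p (0, 1)) p‖ ≤ 1 / 2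
        rw [e2]
        refine le_trans (mul_le_mul_of_nonneg_left ((h2 p).trans ?_) (abs_nonneg t)) ht
        exact (le_max_right _ _).trans (le_max_left _ _))
  refine ⟨f, f1, f2, fun x y => ?_⟩
  have g1 : px (fun q => t * G q) (x, y) = t * px G (x, y) := congrFun (e (1, 0)) (x, y)
  have g2 : ps (fun q => t * G q) (x, y) = t * ps G (x, y) := congrFun (e (0, 1)) (x, y)
  have := f3 x y
  rwa [g1, g2] at this

/-- a bump function -/
noncomputable def chi : ContDiffBump (0 : ℝ × ℝ) := ⟨1, 2, one_pos, one_lt_two⟩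

theorem loc (P : ℝ × ℝ → ℝ) (hP : Sm P) : Sm (fun p => chi p * P p) ∧
    HasCompactSupport (fun p => chi p * P p) ∧
    ∀ p : ℝ × ℝ, ‖p‖ < 1 → fderiv ℝ (fun p => chi p * P p) p = fderiv ℝ P p := by
  refine ⟨chi.contDiff.mul hP, chi.hasCompactSupport.mul_right, fun p hp => ?_⟩
  refine Filter.EventuallyEq.fderiv_eq ?_
  have h1 : ∀ᶠ q : ℝ × ℝ in 𝓝 p, ‖q‖ < 1 :=
    (isOpen_lt continuous_norm continuous_const).mem_nhds hp
  filter_upwards [h1] with q hq
  rw [chi.one_of_mem_closedBall, one_mul]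
  rw [mem_closedBall_zero_iff]
  exact hq.le

theorem nrm (z : ℂ) (w : ℝ × ℝ) (h1 : |w.1| ≤ |z.re|) (h2 : |w.2| ≤ |z.im|) (hz : ‖z‖ < 1) :
    ‖w‖ < 1 := by
  rw [Prod.norm_def, Real.norm_eq_abs, Real.norm_eq_abs]
  exact max_lt (lt_of_le_of_lt h1 (lt_of_le_of_lt (Complex.abs_re_le_norm z) hz))
    (lt_of_le_of_lt h2 (lt_of_le_of_lt (Complex.abs_im_le_norm z) hz))

theorem t_shear (h : S_gf) : S_shear := by
  intro t
  constructor
  · refine iter (fun t z => (⟨z.re + t * z.im, z.im⟩ : ℂ)) ?_ ?_ ?_ ?_ t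
    · intro s t z
      apply Complex.ext <;> simp
      ring
    · intro t
      have : (fun z : ℂ => (⟨z.re + t * z.im, z.im⟩ : ℂ))
          = fun z : ℂ => ((z.re + t * z.im : ℝ) : ℂ) + ((z.im : ℝ) : ℂ) * Complex.I := by
        funext z; apply Complex.ext <;> simp
      rw [this]
      fun_prop
    · intro t; apply Complex.ext <;> simp
    · have hP : Sm (fun p : ℝ × ℝ => p.2 ^ 2 / 2) := (contDiff_snd.pow 2).div_const 2
      obtain ⟨l1, l2, l3⟩ := loc _ hP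
      obtain ⟨B, hB, hb⟩ := gen h l1 l2
      refine ⟨B, hB, fun t ht => ?_⟩
      obtain ⟨f, f1, f2, f3⟩ := hb t ht
      refine ⟨f, f1, f2, 1, one_pos, fun z hz => ?_⟩
      have hd : ∀ p : ℝ × ℝ, HasFDerivAt (fun p : ℝ × ℝ => p.2 ^ 2 / 2)
          (p.2 • ContinuousLinearMap.snd ℝ ℝ ℝ) p := by
        intro p
        have h1 : HasFDerivAt (fun p : ℝ × ℝ => p.2) (ContinuousLinearMap.snd ℝ ℝ ℝ) p :=
          hasFDerivAt_snd
        have h2 := (h1.pow 2).mul_const (1 / 2 : ℝ)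
        have h3 : (fun p : ℝ × ℝ => p.2 ^ 2 / 2) = fun p : ℝ × ℝ => p.2 ^ 2 * (1 / 2) := by
          funext p; ring
        rw [h3]
        refine h2.congr_fderiv ?_
        ext <;> simp
      have hn := nrm z (z.re, z.im) le_rfl le_rfl hz
      have e1 : px (fun p => chi p * (p.2 ^ 2 / 2)) (z.re, z.im) = 0 := by
        unfold px
        rw [l3 _ hn, (hd _).fderiv]
        simp
      have e2 : ps (fun p => chi p * (p.2 ^ 2 / 2)) (z.re, z.im) = z.im := by
        unfold ps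
        rw [l3 _ hn, (hd _).fderiv]
        simp
      have := f3 z.re z.im
      rw [e1, e2, mul_zero, add_zero] at this
      exact this
  · refine iter (fun t z => (⟨z.re, z.im + t * z.re⟩ : ℂ)) ?_ ?_ ?_ ?_ t
    · intro s t z
      apply Complex.ext <;> simp
      ring
    · intro t
      have : (fun z : ℂ => (⟨z.re, z.im + t * z.re⟩ : ℂ))
          = fun z : ℂ => ((z.re : ℝ) : ℂ) + ((z.im + t * z.re : ℝ) : ℂ) * Complex.I := by
        funext z; apply Complex.ext <;> simp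
      rw [this]
      fun_prop
    · intro t; apply Complex.ext <;> simp
    · have hP : Sm (fun p : ℝ × ℝ => -(p.1 ^ 2 / 2)) := ((contDiff_fst.pow 2).div_const 2).neg
      obtain ⟨l1, l2, l3⟩ := loc _ hP
      obtain ⟨B, hB, hb⟩ := gen h l1 l2
      refine ⟨B, hB, fun t ht => ?_⟩
      obtain ⟨f, f1, f2, f3⟩ := hb t ht
      refine ⟨f, f1, f2, 1 / (2 * (1 + |t|)), by positivity, fun z hz => ?_⟩
      have hd : ∀ p : ℝ × ℝ, HasFDerivAt (fun p : ℝ × ℝ => -(p.1 ^ 2 / 2))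
          ((-p.1) • ContinuousLinearMap.fst ℝ ℝ ℝ) p := by
        intro p
        have h1 : HasFDerivAt (fun p : ℝ × ℝ => p.1) (ContinuousLinearMap.fst ℝ ℝ ℝ) p :=
          hasFDerivAt_fst
        have h2 := (h1.pow 2).mul_const (-(1 / 2) : ℝ)
        have h3 : (fun p : ℝ × ℝ => -(p.1 ^ 2 / 2)) = fun p : ℝ × ℝ => p.1 ^ 2 * (-(1 / 2)) := by
          funext p; ring
        rw [h3]
        refine h2.congr_fderiv ?_
        ext <;> simp
      have hn : ‖((z.re, z.im + t * z.re) : ℝ × ℝ)‖ < 1 := by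
        have hz1 := lt_of_le_of_lt (Complex.abs_re_le_norm z) hz
        have hz2 := lt_of_le_of_lt (Complex.abs_im_le_norm z) hz
        have ht1 : 1 / (2 * (1 + |t|)) * (2 * (1 + |t|)) = 1 := by
          have : (0 : ℝ) < 2 * (1 + |t|) := by positivity
          field_simp
        have ht0 := abs_nonneg t
        have hc : (0 : ℝ) < 1 / (2 * (1 + |t|)) := by positivity
        set c := 1 / (2 * (1 + |t|)) with hcdef
        have hc1 : c < 1 := by nlinarith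
        rw [Prod.norm_def, Real.norm_eq_abs, Real.norm_eq_abs]
        refine max_lt (by simpa using lt_trans hz1 hc1) ?_
        simp only
        calc |z.im + t * z.re| ≤ |z.im| + |t * z.re| := abs_add_le _ _
          _ = |z.im| + |t| * |z.re| := by rw [abs_mul]
          _ < 1 := by nlinarith [abs_nonneg z.re, abs_nonneg z.im]
      have e1 : px (fun p => chi p * -(p.1 ^ 2 / 2)) (z.re, z.im + t * z.re) = -z.re := by
        unfold px
        rw [l3 _ hn, (hd _).fderiv]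
        simp
      have e2 : ps (fun p => chi p * -(p.1 ^ 2 / 2)) (z.re, z.im + t * z.re) = 0 := by
        unfold ps
        rw [l3 _ hn, (hd _).fderiv]
        simp
      have := f3 z.re (z.im + t * z.re)
      rw [e1, e2, mul_zero, add_zero] at this
      have h4 : z.im + t * z.re + t * -z.re = z.im := by ring
      rw [h4] at this
      exact this

end Pool.Agent.W699.DP.Sh
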